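import Pool.Agent.Helper89_LTG.Tai2

/-!
# TAI on the torus: everything explicit
-/

set_option autoImplicit false

open scoped BigOperators
open Finset

namespace Pool.Agent.LTG.H89

section dist

variable {d M : ℕ}

theorem dT_self (x : Tor d M) : dT x x = 0 := by
  unfold dT
  refine Finset.sum_eq_zero fun i _ => ?_
  rw [sub_self, ZMod.valMinAbs_zero, Int.natAbs_zero]

theorem dT_comm (x y : Tor d M) : dT x y = dT y x := by
  unfold dT
  refine Finset.sum_congr rfl fun i _ => ?_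
  rw [← neg_sub, ZMod.natAbs_valMinAbs_neg]

theorem dT_triangle (x y z : Tor d M) : dT x z ≤ dT x y + dT y z := by
  unfold dT
  rw [← Finset.sum_add_distrib]
  refine Finset.sum_le_sum fun i _ => ?_
  have h1 : z i - x i = (y i - x i) + (z i - y i) := by ring
  rw [h1]
  exact ((y i - x i).natAbs_valMinAbs_add_le (z i - y i)).trans (Int.natAbs_add_le _ _)

theorem dT_bond [NeZero M] (e : Bd d M) : dT (sT e) (tT e) ≤ 1 := by
  have h1 : ∀ i, ((tT e : Tor d M) i - (sT e : Tor d M) i).valMinAbs.natAbs ≤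
      if i = e.1 then 1 else 0 := fun i => by
    unfold tT sT
    simp only [Pi.add_apply, add_sub_cancel_left]
    by_cases hi : i = e.1
    · rw [if_pos hi, hi, Pi.single_eq_same, ZMod.valMinAbs_natAbs_eq_min]
      refine (min_le_left _ _).trans ?_
      rw [ZMod.val_one_eq_one_mod]
      exact Nat.mod_le 1 M
    · rw [if_neg hi, Pi.single_eq_of_ne hi]; simp
  unfold dT
  refine (Finset.sum_le_sum fun i _ => h1 i).trans (le_of_eq ?_)
  rw [Finset.sum_ite_eq' univ e.1 fun _ => 1, if_pos (mem_univ _)]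

/-- the distance from a finite set -/
noncomputable def dS (b : Finset (Tor d M)) (x : Tor d M) : ℕ := sInf {n | ∃ y ∈ b, dT x y = n}

theorem dS_mem {b : Finset (Tor d M)} (hb : b.Nonempty) (x : Tor d M) :
    ∃ y ∈ b, dT x y = dS b x := by
  obtain ⟨y, hy⟩ := hb
  exact Nat.sInf_mem (s := {n | ∃ y ∈ b, dT x y = n}) ⟨dT x y, y, hy, rfl⟩

theorem dS_le {b : Finset (Tor d M)} {y : Tor d M} (hy : y ∈ b) (x : Tor d M) :
    dS b x ≤ dT x y := Nat.sInf_le ⟨y, hy, rfl⟩

theorem dS_lip {b : Finset (Tor d M)} (hb : b.Nonempty) (x z : Tor d M) :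
    dS b x ≤ dT x z + dS b z := by
  obtain ⟨y, hy, h⟩ := dS_mem hb z
  exact (dS_le hy x).trans ((dT_triangle x z y).trans (by rw [h]))

theorem dS_bond [NeZero M] {b : Finset (Tor d M)} (hb : b.Nonempty) (e : Bd d M) :
    |(dS b (tT e) : ℝ) - dS b (sT e)| ≤ 1 := by
  have h1 := dS_lip hb (tT e) (sT e)
  have h2 := dS_lip hb (sT e) (tT e)
  have h3 := dT_bond e
  rw [dT_comm] at h1
  rw [abs_le]
  have h4 : (dS b (tT e) : ℝ) ≤ 1 + dS b (sT e) := by exact_mod_cast h1.trans (by omega)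
  have h5 : (dS b (sT e) : ℝ) ≤ 1 + dS b (tT e) := by exact_mod_cast h2.trans (by omega)
  constructor <;> linarith

theorem dT_bond_abs [NeZero M] (o : Tor d M) (e : Bd d M) :
    |(dT (tT e) o : ℝ) - dT (sT e) o| ≤ 1 := by
  have h1 := dT_triangle (tT e) (sT e) o
  have h2 := dT_triangle (sT e) (tT e) o
  have h3 := dT_bond e
  rw [dT_comm (tT e) (sT e)] at h1
  rw [abs_le]
  have h4 : (dT (tT e) o : ℝ) ≤ 1 + dT (sT e) o := by exact_mod_cast h1.trans (by omega)
  have h5 : (dT (sT e) o : ℝ) ≤ 1 + dT (tT e) o := by exact_mod_cast h2.trans (by omega)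
  constructor <;> linarith

end dist

section torus

variable {d M : ℕ} [NeZero M]

/-- TAI on the torus. `ρ ≥ 0` has increments at most `1` on the bonds and is at least
`c * distance from b - r0` on `A`; the diameter of `b` is at most `D0`; the pairs in the support of `δ`
have `ρ x + ρ y ≥ r`. -/
theorem tai_tor (b : Finset (Tor d M)) {D0 : ℕ} (hD0 : ∀ y ∈ b, ∀ z ∈ b, dT y z ≤ D0)
    {ρ : Tor d M → ℝ} (hρ0 : ∀ x, 0 ≤ ρ x)
    (hρ : ∀ e : Bd d M, |ρ (tT e) - ρ (sT e)| ≤ 1) {A : Tor d M → Prop} [DecidablePred A]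
    {δ : Tor d M → Tor d M → ℝ} {T a c r r0 K : ℝ} (hT : 0 ≤ T) (ha : 0 < a) (hc : 0 < c)
    (hρb : ∀ x, A x → ∃ y ∈ b, c * dT x y - r0 ≤ ρ x) (hK : 1 ≤ K)
    (hKr : 2 * r0 / c + D0 ≤ (K - 1 / c) * r) (hKc : 1 / c ≤ K)
    (hδ : ∀ x y, |δ x y| ≤ T * Real.exp (-(a * (ρ x + ρ y))))
    (hA : ∀ x y, δ x y ≠ 0 → A x ∧ A y ∧ r ≤ ρ x + ρ y) (f h : Tor d M → ℝ) :
    |lap δ f| ≤
      mor sT tT (cutX A fun x => 3 * (T * Real.exp (-(a / 2 * r))) *
          (b.card * (Real.exp (a / 8 * r0) * (1 + 16 / (a * c)) ^ d)) * Real.exp (-(a / 2 * ρ x)))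
        (fun e => 384 * (T * Real.exp (-(a / 2 * r))) * K ^ 2 *
          (b.card * (Real.exp (a / 8 * r0) * (1 + 16 / (a * c)) ^ d)) ^ 2 / a ^ 2 *
            Real.exp (-(a / (4 * K) * ρ (sT e)))) f h := by
  have h1 := tai (s := sT) (t := tT) (A := A) (δ := δ) (n := fun x y => dT x y)
    (T := T * Real.exp (-(a / 2 * r))) (a := a / 2) (K := K)
    (N := b.card * (Real.exp (a / 8 * r0) * (1 + 16 / (a * c)) ^ d)) hρ0 hρ
    (fun x y _ => wk_tor x y) (mul_nonneg hT (Real.exp_pos _).le) (by positivity) hK ?_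
    (fun x y h => ⟨(hA x y h).1, (hA x y h).2.1⟩) ?_ ?_ f h
  · unfold lap
    refine h1.trans (le_of_eq ?_)
    congr 1
    funext e
    have e1 : 96 * (T * Real.exp (-(a / 2 * r))) * K ^ 2 *
          (b.card * (Real.exp (a / 8 * r0) * (1 + 16 / (a * c)) ^ d)) ^ 2 / (a / 2) ^ 2 =
        384 * (T * Real.exp (-(a / 2 * r))) * K ^ 2 *
          (b.card * (Real.exp (a / 8 * r0) * (1 + 16 / (a * c)) ^ d)) ^ 2 / a ^ 2 := by
      field_simp; ring
    have e2 : a / 2 / (2 * K) = a / (4 * K) := by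
      have : K ≠ 0 := by linarith
      field_simp; norm_num
    rw [e1, e2]
  · intro x y
    by_cases hd : δ x y = 0
    · rw [hd, abs_zero]; exact mul_nonneg (mul_nonneg hT (Real.exp_pos _).le) (Real.exp_pos _).le
    · refine (hδ x y).trans ?_
      rw [mul_assoc]
      refine mul_le_mul_of_nonneg_left ?_ hT
      rw [← Real.exp_add]
      apply Real.exp_le_exp.2
      nlinarith [(hA x y hd).2.2]
  · intro x y hd
    obtain ⟨hx, hy, hr⟩ := hA x y hd
    obtain ⟨x', hx', hxx⟩ := hρb x hx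
    obtain ⟨y', hy', hyy⟩ := hρb y hy
    have h2 : dT x y ≤ dT x x' + D0 + dT y y' := by
      have h3 := dT_triangle x x' y
      have h4 := dT_triangle x' y' y
      have h5 := hD0 x' hx' y' hy'
      rw [dT_comm y' y] at h4
      omega
    have h3 : (dT x y : ℝ) ≤ dT x x' + D0 + dT y y' := by exact_mod_cast h2
    have h4 : (dT x x' : ℝ) ≤ (ρ x + r0) / c := by rw [le_div_iff₀ hc]; linarith
    have h5 : (dT y y' : ℝ) ≤ (ρ y + r0) / c := by rw [le_div_iff₀ hc]; linarith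
    have h6 : (ρ x + r0) / c + (ρ y + r0) / c = 1 / c * (ρ x + ρ y) + 2 * r0 / c := by
      field_simp; ring
    have h7 : (K - 1 / c) * r ≤ (K - 1 / c) * (ρ x + ρ y) :=
      mul_le_mul_of_nonneg_left hr (by linarith)
    linarith
  · have h2 := sum_exp_set (a / 8) c r0 (by positivity) hc b ρ A hρb
    have e1 : a / 2 / 4 = a / 8 := by ring
    have e2 : 2 / (a / 8 * c) = 16 / (a * c) := by field_simp; norm_num
    rw [e1]
    rw [e2] at h2
    exact h2

/-- TAI on the torus, weights decaying away from a point: `w x y ≤ T exp (- a (|x - o| + |y - o|))` -/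
theorem tai_pt (o : Tor d M) {A : Tor d M → Prop} [DecidablePred A]
    {δ : Tor d M → Tor d M → ℝ} {T a : ℝ} (hT : 0 ≤ T) (ha : 0 < a)
    (hδ : ∀ x y, |δ x y| ≤ T * Real.exp (-(a * ((dT x o : ℝ) + dT y o))))
    (hA : ∀ x y, δ x y ≠ 0 → A x ∧ A y) (f h : Tor d M → ℝ) :
    |lap δ f| ≤
      mor sT tT (cutX A fun x => 3 * T * (1 + 16 / a) ^ d * Real.exp (-(a / 2 * dT x o)))
        (fun e => 384 * T * ((1 + 16 / a) ^ d) ^ 2 / a ^ 2 *
            Real.exp (-(a / 4 * dT (sT e) o))) f h := by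
  have h1 := tai_tor {o} (D0 := 0) (by
      intro y hy z hz
      rw [mem_singleton] at hy hz
      rw [hy, hz, dT_self]) (ρ := fun x => (dT x o : ℝ)) (fun x => Nat.cast_nonneg _)
    (fun e => dT_bond_abs o e) (A := A) (δ := δ) (T := T) (a := a) (c := 1) (r := 0) (r0 := 0)
    (K := 1) hT ha one_pos (fun x _ => ⟨o, mem_singleton_self o, by simp⟩) le_rfl (by simp)
    (by simp) hδ (fun x y h => ⟨(hA x y h).1, (hA x y h).2, by positivity⟩) f h
  simpa using h1

/-- the one-point version: the variance of `f` in a weight which decays exponentially -/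
theorem var_lap {X : Type*} [Fintype X] {w : X → ℝ} {W m : ℝ} (hW : ∑ x, w x = W) (hW0 : 0 < W)
    (f : X → ℝ) (hm : W * m = ∑ x, w x * f x) :
    ∑ x, w x * (f x - m) ^ 2 = lap (fun x y => w x * w y / W) f := by
  unfold lap
  have h1 : ∀ x y, w x * w y / W * (f x - f y) ^ 2 =
      (w x * f x ^ 2 / W) * w y + (w x / W) * (w y * f y ^ 2) - 2 * (w x * f x / W) * (w y * f y) :=
    fun x y => by ring
  simp only [h1, Finset.sum_sub_distrib, Finset.sum_add_distrib, ← Finset.mul_sum, ← hm, hW]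
  have h2 : ∑ x, 2 * (w x * f x / W) = 2 * m := by
    rw [← Finset.mul_sum, ← Finset.sum_div, ← hm]; field_simp
  have h4 : ∑ x, w x / W = 1 := by rw [← Finset.sum_div, hW]; field_simp
  rw [← Finset.sum_mul, ← Finset.sum_mul, ← Finset.sum_mul, h2, h4, ← Finset.sum_div]
  have h3 : ∀ x, w x * (f x - m) ^ 2 = w x * f x ^ 2 - 2 * m * (w x * f x) + m ^ 2 * w x :=
    fun x => by ring
  simp only [h3, Finset.sum_sub_distrib, Finset.sum_add_distrib, ← Finset.mul_sum, ← hm, hW]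
  field_simp
  ring

/-- the weights of the one-point version -/
theorem var_wt {X : Type*} [Fintype X] {w : X → ℝ} {W : ℝ} (hw : ∀ x, 0 ≤ w x)
    (hW : ∑ x, w x = W) (hW0 : 0 < W) {T a : ℝ} {ρ : X → ℝ} (hT : 0 ≤ T)
    (hwT : ∀ x, w x ≤ T * Real.exp (-(a * ρ x))) (x y : X) :
    |w x * w y / W| ≤ T * Real.exp (-(a / 2 * (ρ x + ρ y))) := by
  have h0 : 0 ≤ w x * w y / W := div_nonneg (mul_nonneg (hw x) (hw y)) hW0.le
  rw [abs_of_nonneg h0]
  have hx : w x ≤ W := by rw [← hW]; exact Finset.single_le_sum (fun i _ => hw i) (mem_univ x)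
  have hy : w y ≤ W := by rw [← hW]; exact Finset.single_le_sum (fun i _ => hw i) (mem_univ y)
  have h1 : w x * w y / W ≤ w x := by
    rw [div_le_iff₀ hW0]; exact mul_le_mul_of_nonneg_left hy (hw x)
  have h2 : w x * w y / W ≤ w y := by
    rw [div_le_iff₀ hW0, mul_comm]; exact mul_le_mul_of_nonneg_left hx (hw y)
  have h3 : (w x * w y / W) ^ 2 ≤ (T * Real.exp (-(a / 2 * (ρ x + ρ y)))) ^ 2 := by
    have h4 : (w x * w y / W) * (w x * w y / W) ≤
        (T * Real.exp (-(a * ρ x))) * (T * Real.exp (-(a * ρ y))) :=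
      mul_le_mul (h1.trans (hwT x)) (h2.trans (hwT y)) h0 (mul_nonneg hT (Real.exp_pos _).le)
    rw [sq]
    refine h4.trans (le_of_eq ?_)
    have h5 : Real.exp (-(a * ρ x)) * Real.exp (-(a * ρ y)) =
        Real.exp (-(a / 2 * (ρ x + ρ y))) * Real.exp (-(a / 2 * (ρ x + ρ y))) := by
      rw [← Real.exp_add, ← Real.exp_add]; congr 1; ring
    calc T * Real.exp (-(a * ρ x)) * (T * Real.exp (-(a * ρ y))) =
        T * T * (Real.exp (-(a * ρ x)) * Real.exp (-(a * ρ y))) := by ring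
      _ = _ := by rw [h5]; ring
  exact le_of_sq_le_sq h3 (mul_nonneg hT (Real.exp_pos _).le)

end torus

end Pool.Agent.LTG.H89
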