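import Pool.Agent.Helper22_LTG.Tor

/-!
# TAI: the exponentially small tails of the increment of a form

`D f = (1/2) ∑ δ_xy (f_x - f_y)²` with `|δ_xy| ≤ T exp (- a (ρ_x + ρ_y))`, `ρ` a nonnegative function with
increments at most one on the bonds (the distance from the block, or the alive distance). Then `D` is
bounded by a Moreau expression whose weights decay exponentially in `ρ`.
-/

set_option autoImplicit false

open scoped BigOperators
open Finset

namespace Pool.Agent.LTG.H89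

/-! ### walks -/

/-- `x` and `y` are joined by a walk of length `n` -/
inductive Wk {X ep : Type*} (s t : ep → X) : ℕ → X → X → Prop
  | nil (x : X) : Wk s t 0 x x
  | fwd {n : ℕ} (e : ep) {y : X} : Wk s t n (t e) y → Wk s t (n + 1) (s e) y
  | bwd {n : ℕ} (e : ep) {y : X} : Wk s t n (s e) y → Wk s t (n + 1) (t e) y

section graph

variable {X ep : Type*} {s t : ep → X} {ρ : X → ℝ}

theorem Wk.rho (hρ : ∀ e, |ρ (t e) - ρ (s e)| ≤ 1) {n : ℕ} {x y : X} (h : Wk s t n x y) :
    ρ x ≤ ρ y + n ∧ ρ y ≤ ρ x + n := by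
  induction h with
  | nil x => simp
  | fwd e _ ih =>
    have h1 := abs_le.1 (hρ e)
    push_cast
    constructor <;> linarith [ih.1, ih.2, h1.1, h1.2]
  | bwd e _ ih =>
    have h1 := abs_le.1 (hρ e)
    push_cast
    constructor <;> linarith [ih.1, ih.2, h1.1, h1.2]

theorem Wk.path (hρ : ∀ e, |ρ (t e) - ρ (s e)| ≤ 1) {w : ep → ℝ} {S m R : ℝ} {h : X → ℝ}
    (hS : ∀ e, w e * (h (t e) - h (s e)) ^ 2 ≤ S) (hm : 0 ≤ m)
    (hmw : ∀ e, 2 * ρ (s e) ≤ R → m ≤ w e) {n : ℕ} {x y : X} (hw : Wk s t n x y)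
    (hR : ρ x + ρ y + n ≤ R) : Real.sqrt m * |h x - h y| ≤ n * Real.sqrt S := by
  have key : ∀ e, 2 * ρ (s e) ≤ R → Real.sqrt m * |h (t e) - h (s e)| ≤ Real.sqrt S := by
    intro e he
    apply Real.le_sqrt_of_sq_le
    rw [mul_pow, Real.sq_sqrt hm, sq_abs]
    exact (mul_le_mul_of_nonneg_right (hmw e he) (sq_nonneg _)).trans (hS e)
  induction hw with
  | nil x => simp
  | @fwd n e y hw' ih =>
    have h1 := abs_le.1 (hρ e)
    have h2 := (hw'.rho hρ).1
    push_cast at hR ⊢
    have h3 := ih (by linarith [h1.1, h1.2])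
    have h4 := key e (by linarith [h1.1, h1.2])
    have h5 : |h (s e) - h y| ≤ |h (t e) - h (s e)| + |h (t e) - h y| := by
      have := abs_sub_le (h (s e)) (h (t e)) (h y)
      rwa [abs_sub_comm (h (s e)) (h (t e))] at this
    nlinarith [mul_le_mul_of_nonneg_left h5 (Real.sqrt_nonneg m)]
  | @bwd n e y hw' ih =>
    have h1 := abs_le.1 (hρ e)
    have h2 := (hw'.rho hρ).1
    push_cast at hR ⊢
    have h3 := ih (by linarith [h1.1, h1.2])
    have h4 := key e (by linarith [h1.1, h1.2])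
    have h5 : |h (t e) - h y| ≤ |h (t e) - h (s e)| + |h (s e) - h y| :=
      abs_sub_le (h (t e)) (h (s e)) (h y)
    nlinarith [mul_le_mul_of_nonneg_left h5 (Real.sqrt_nonneg m)]

variable [Fintype X] [Fintype ep]

/-- the square of the difference along a walk -/
theorem Wk.sq (hρ : ∀ e, |ρ (t e) - ρ (s e)| ≤ 1) {w : ep → ℝ} (hw0 : ∀ e, 0 ≤ w e) {m R : ℝ}
    (h : X → ℝ) (hm : 0 ≤ m) (hmw : ∀ e, 2 * ρ (s e) ≤ R → m ≤ w e) {n : ℕ} {x y : X}
    (hw : Wk s t n x y) (hR : ρ x + ρ y + n ≤ R) :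
    m * (h x - h y) ^ 2 ≤ (n : ℝ) ^ 2 * bon s t w h := by
  have hS0 : 0 ≤ bon s t w h := Finset.sum_nonneg fun e _ => mul_nonneg (hw0 e) (sq_nonneg _)
  have hS : ∀ e, w e * (h (t e) - h (s e)) ^ 2 ≤ bon s t w h := fun e =>
    Finset.single_le_sum (f := fun e => w e * (h (t e) - h (s e)) ^ 2)
      (fun e _ => mul_nonneg (hw0 e) (sq_nonneg _)) (Finset.mem_univ e)
  have h1 := hw.path hρ hS hm hmw hR
  have h2 := pow_le_pow_left₀ (mul_nonneg (Real.sqrt_nonneg m) (abs_nonneg _)) h1 2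
  rw [mul_pow, Real.sq_sqrt hm, sq_abs, mul_pow, Real.sq_sqrt hS0] at h2
  exact h2

/-- TAI -/
theorem tai {A : X → Prop} [DecidablePred A] {δ : X → X → ℝ} {n : X → X → ℕ} {T a K N : ℝ}
    (hρ0 : ∀ x, 0 ≤ ρ x) (hρ : ∀ e, |ρ (t e) - ρ (s e)| ≤ 1)
    (hw : ∀ x y, δ x y ≠ 0 → Wk s t (n x y) x y) (hT : 0 ≤ T) (ha : 0 < a) (hK : 1 ≤ K)
    (hδ : ∀ x y, |δ x y| ≤ T * Real.exp (-(a * (ρ x + ρ y))))
    (hA : ∀ x y, δ x y ≠ 0 → A x ∧ A y)
    (hn : ∀ x y, δ x y ≠ 0 → (n x y : ℝ) ≤ K * (ρ x + ρ y))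
    (hN : ∑ x, (if A x then Real.exp (-(a / 4 * ρ x)) else 0) ≤ N) (f h : X → ℝ) :
    |1 / 2 * ∑ x, ∑ y, δ x y * (f x - f y) ^ 2| ≤
      mor s t (cutX A fun x => 3 * T * N * Real.exp (-(a * ρ x)))
        (fun e => 96 * T * K ^ 2 * N ^ 2 / a ^ 2 * Real.exp (-(a / (2 * K) * ρ (s e)))) f h := by
  set w : ep → ℝ := fun e => Real.exp (-(a / (2 * K) * ρ (s e))) with hwdef
  set S := bon s t w h with hSdef
  have hw0 : ∀ e, 0 ≤ w e := fun e => (Real.exp_pos _).le
  have hS0 : 0 ≤ S := Finset.sum_nonneg fun e _ => mul_nonneg (hw0 e) (sq_nonneg _)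
  set g : X → ℝ := fun x => if A x then Real.exp (-(a / 4 * ρ x)) else 0 with hg
  have hg0 : ∀ x, 0 ≤ g x := fun x => by
    simp only [hg]; split
    · exact (Real.exp_pos _).le
    · exact le_rfl
  have hN0 : 0 ≤ N := (Finset.sum_nonneg fun x _ => hg0 x).trans hN
  have hK0 : 0 < K := lt_of_lt_of_le one_pos hK
  -- the three terms
  have h3 : ∀ x y, |δ x y| * (f x - f y) ^ 2 ≤ 3 * (|δ x y| * (f x - h x) ^ 2) +
      3 * (|δ x y| * (f y - h y) ^ 2) + 3 * (|δ x y| * (h x - h y) ^ 2) := fun x y => by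
    have : (f x - f y) ^ 2 ≤ 3 * (f x - h x) ^ 2 + 3 * (f y - h y) ^ 2 + 3 * (h x - h y) ^ 2 := by
      nlinarith [sq_nonneg ((f x - h x) + (f y - h y)), sq_nonneg ((f x - h x) - (h x - h y)),
        sq_nonneg ((f y - h y) + (h x - h y))]
    nlinarith [mul_le_mul_of_nonneg_left this (abs_nonneg (δ x y))]
  -- the row sums
  have hrow : ∀ x, ∑ y, |δ x y| ≤ cutX A (fun x => T * N * Real.exp (-(a * ρ x))) x := fun x => by
    unfold cutX
    by_cases hx : A x
    · rw [if_pos hx]
      have : ∀ y, |δ x y| ≤ T * Real.exp (-(a * ρ x)) * g y := fun y => by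
        by_cases hd : δ x y = 0
        · rw [hd, abs_zero]
          exact mul_nonneg (mul_nonneg hT (Real.exp_pos _).le) (hg0 y)
        · have hAy := (hA x y hd).2
          simp only [hg]; rw [if_pos hAy]
          refine (hδ x y).trans ?_
          rw [mul_assoc]
          refine mul_le_mul_of_nonneg_left ?_ hT
          rw [← Real.exp_add]
          apply Real.exp_le_exp.2
          nlinarith [mul_nonneg ha.le (hρ0 y)]
      refine (Finset.sum_le_sum fun y _ => this y).trans ?_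
      rw [← Finset.mul_sum]
      have h5 := mul_le_mul_of_nonneg_left hN (mul_nonneg hT (Real.exp_pos (-(a * ρ x))).le)
      refine h5.trans (le_of_eq (by ring))
    · rw [if_neg hx]
      refine le_of_eq (Finset.sum_eq_zero fun y _ => ?_)
      by_contra hc
      exact hx (hA x y (fun h0 => hc (by rw [h0, abs_zero]))).1
  have hcol : ∀ y, ∑ x, |δ x y| ≤ cutX A (fun x => T * N * Real.exp (-(a * ρ x))) y := fun y => by
    unfold cutX
    by_cases hy : A y
    · rw [if_pos hy]
      have : ∀ x, |δ x y| ≤ T * Real.exp (-(a * ρ y)) * g x := fun x => by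
        by_cases hd : δ x y = 0
        · rw [hd, abs_zero]
          exact mul_nonneg (mul_nonneg hT (Real.exp_pos _).le) (hg0 x)
        · have hAx := (hA x y hd).1
          simp only [hg]; rw [if_pos hAx]
          refine (hδ x y).trans ?_
          rw [mul_assoc]
          refine mul_le_mul_of_nonneg_left ?_ hT
          rw [← Real.exp_add]
          apply Real.exp_le_exp.2
          nlinarith [mul_nonneg ha.le (hρ0 x)]
      refine (Finset.sum_le_sum fun x _ => this x).trans ?_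
      rw [← Finset.mul_sum]
      have h5 := mul_le_mul_of_nonneg_left hN (mul_nonneg hT (Real.exp_pos (-(a * ρ y))).le)
      refine h5.trans (le_of_eq (by ring))
    · rw [if_neg hy]
      refine le_of_eq (Finset.sum_eq_zero fun x _ => ?_)
      by_contra hc
      exact hy (hA x y (fun h0 => hc (by rw [h0, abs_zero]))).2
  -- the bonds
  have hbd : ∀ x y, |δ x y| * (h x - h y) ^ 2 ≤ T * K ^ 2 * (64 / a ^ 2) * S * (g x * g y) :=
    fun x y => by
      by_cases hd : δ x y = 0
      · rw [hd, abs_zero, zero_mul]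
        exact mul_nonneg (by positivity) (mul_nonneg (hg0 x) (hg0 y))
      · obtain ⟨hAx, hAy⟩ := hA x y hd
        set u := ρ x + ρ y with hu
        have hu0 : 0 ≤ u := add_nonneg (hρ0 x) (hρ0 y)
        have hnu := hn x y hd
        have h6 : Real.exp (-(a / 2 * u)) * (h x - h y) ^ 2 ≤ (n x y : ℝ) ^ 2 * S := by
          refine (hw x y hd).sq hρ hw0 h (Real.exp_pos _).le (R := 2 * K * u) ?_ ?_
          · intro e he
            simp only [hwdef]
            apply Real.exp_le_exp.2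
            have h7 : ρ (s e) ≤ K * u := by linarith
            have h8 : a / (2 * K) * ρ (s e) ≤ a / (2 * K) * (K * u) :=
              mul_le_mul_of_nonneg_left h7 (by positivity)
            have h9 : a / (2 * K) * (K * u) = a / 2 * u := by field_simp
            linarith
          · nlinarith
        have h7 : (n x y : ℝ) ^ 2 ≤ K ^ 2 * u ^ 2 := by
          rw [← mul_pow]
          exact pow_le_pow_left₀ (Nat.cast_nonneg _) hnu 2
        have h8 : u ^ 2 ≤ 64 / a ^ 2 * Real.exp (a / 4 * u) := by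
          have h9 : a / 8 * u ≤ Real.exp (a / 8 * u) := by
            linarith [Real.add_one_le_exp (a / 8 * u)]
          have h10 := pow_le_pow_left₀ (by positivity) h9 2
          rw [← Real.exp_nat_mul] at h10
          have h11 : ((2 : ℕ) : ℝ) * (a / 8 * u) = a / 4 * u := by push_cast; ring
          rw [h11] at h10
          have h12 : (a / 8 * u) ^ 2 = a ^ 2 / 64 * u ^ 2 := by ring
          rw [h12] at h10
          calc u ^ 2 = 64 / a ^ 2 * (a ^ 2 / 64 * u ^ 2) := by field_simp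
            _ ≤ _ := mul_le_mul_of_nonneg_left h10 (by positivity)
        have h9 : g x * g y = Real.exp (-(a / 4 * u)) := by
          simp only [hg]
          rw [if_pos hAx, if_pos hAy, ← Real.exp_add]; congr 1; rw [hu]; ring
        rw [h9]
        have h10 : |δ x y| ≤ T * (Real.exp (-(a / 2 * u)) * Real.exp (-(a / 2 * u))) := by
          refine (hδ x y).trans (le_of_eq ?_)
          rw [← Real.exp_add]; congr 2; ring
        calc |δ x y| * (h x - h y) ^ 2 ≤
            T * (Real.exp (-(a / 2 * u)) * Real.exp (-(a / 2 * u))) * (h x - h y) ^ 2 :=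
              mul_le_mul_of_nonneg_right h10 (sq_nonneg _)
          _ = T * Real.exp (-(a / 2 * u)) * (Real.exp (-(a / 2 * u)) * (h x - h y) ^ 2) := by ring
          _ ≤ T * Real.exp (-(a / 2 * u)) * (K ^ 2 * (64 / a ^ 2 * Real.exp (a / 4 * u)) * S) := by
              refine mul_le_mul_of_nonneg_left ?_ (mul_nonneg hT (Real.exp_pos _).le)
              refine h6.trans ?_
              refine mul_le_mul_of_nonneg_right ?_ hS0
              exact h7.trans (mul_le_mul_of_nonneg_left h8 (sq_nonneg K))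
          _ = T * K ^ 2 * (64 / a ^ 2) * S * (Real.exp (-(a / 2 * u)) * Real.exp (a / 4 * u)) := by
              ring
          _ = _ := by
              rw [← Real.exp_add]; congr 2; ring
  have hsum1 : ∑ x, ∑ y, |δ x y| * (f x - h x) ^ 2 ≤
      ∑ x, cutX A (fun x => T * N * Real.exp (-(a * ρ x))) x * (f x - h x) ^ 2 := by
    refine Finset.sum_le_sum fun x _ => ?_
    rw [← Finset.sum_mul]
    exact mul_le_mul_of_nonneg_right (hrow x) (sq_nonneg _)
  have hsum2 : ∑ x, ∑ y, |δ x y| * (f y - h y) ^ 2 ≤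
      ∑ x, cutX A (fun x => T * N * Real.exp (-(a * ρ x))) x * (f x - h x) ^ 2 := by
    rw [Finset.sum_comm]
    refine Finset.sum_le_sum fun y _ => ?_
    rw [← Finset.sum_mul]
    exact mul_le_mul_of_nonneg_right (hcol y) (sq_nonneg _)
  have hsum3 : ∑ x, ∑ y, |δ x y| * (h x - h y) ^ 2 ≤ T * K ^ 2 * (64 / a ^ 2) * S * N ^ 2 := by
    refine (Finset.sum_le_sum fun x _ => Finset.sum_le_sum fun y _ => hbd x y).trans ?_
    simp only [← Finset.mul_sum]
    refine mul_le_mul_of_nonneg_left ?_ (by positivity)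
    have : ∑ x, g x * ∑ y, g y = (∑ x, g x) ^ 2 := by rw [← Finset.sum_mul]; ring
    rw [this]
    exact pow_le_pow_left₀ (Finset.sum_nonneg fun x _ => hg0 x) hN 2
  have hmor : mor s t (cutX A fun x => 3 * T * N * Real.exp (-(a * ρ x)))
        (fun e => 96 * T * K ^ 2 * N ^ 2 / a ^ 2 * Real.exp (-(a / (2 * K) * ρ (s e)))) f h =
      3 * ∑ x, cutX A (fun x => T * N * Real.exp (-(a * ρ x))) x * (f x - h x) ^ 2 +
        3 / 2 * (T * K ^ 2 * (64 / a ^ 2) * S * N ^ 2) := by
    unfold mor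
    congr 1
    · rw [Finset.mul_sum]
      refine Finset.sum_congr rfl fun x _ => ?_
      unfold cutX; split
      · ring
      · ring
    · have : bon s t (fun e => 96 * T * K ^ 2 * N ^ 2 / a ^ 2 *
          Real.exp (-(a / (2 * K) * ρ (s e)))) h = 96 * T * K ^ 2 * N ^ 2 / a ^ 2 * S := by
        rw [hSdef]; unfold bon
        rw [Finset.mul_sum]
        exact Finset.sum_congr rfl fun e _ => by ring
      rw [this]; field_simp; ring
  rw [hmor]
  have habs : |1 / 2 * ∑ x, ∑ y, δ x y * (f x - f y) ^ 2| ≤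
      1 / 2 * ∑ x, ∑ y, |δ x y| * (f x - f y) ^ 2 := by
    rw [abs_mul, abs_of_pos (by norm_num : (0 : ℝ) < 1 / 2)]
    refine mul_le_mul_of_nonneg_left ?_ (by norm_num)
    refine (Finset.abs_sum_le_sum_abs _ _).trans (Finset.sum_le_sum fun x _ => ?_)
    refine (Finset.abs_sum_le_sum_abs _ _).trans (Finset.sum_le_sum fun y _ => ?_)
    rw [abs_mul, abs_of_nonneg (sq_nonneg (f x - f y))]
  refine habs.trans ?_
  have htot : ∑ x, ∑ y, |δ x y| * (f x - f y) ^ 2 ≤
      3 * ∑ x, ∑ y, |δ x y| * (f x - h x) ^ 2 + 3 * ∑ x, ∑ y, |δ x y| * (f y - h y) ^ 2 +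
        3 * ∑ x, ∑ y, |δ x y| * (h x - h y) ^ 2 := by
    simp only [Finset.mul_sum, ← Finset.sum_add_distrib]
    exact Finset.sum_le_sum fun x _ => Finset.sum_le_sum fun y _ => h3 x y
  linarith

end graph

end Pool.Agent.LTG.H89
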