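import Pool.Agent.Helper89_LTG.Tai

/-!
# TAI on the torus: walks, sums of exponentials, local part plus tail
-/

set_option autoImplicit false

open scoped BigOperators
open Finset

namespace Pool.Agent.LTG.H89

/-! ### walks on the torus -/

section walks

variable {d M : ℕ}

/-- the length of a shortest path -/
def dT (x y : Tor d M) : ℕ := ∑ i, (y i - x i).valMinAbs.natAbs

theorem wk_int [NeZero M] (n : ℕ) : ∀ (c : Fin d → ℤ) (x : Tor d M), ∑ i, (c i).natAbs = n →
    Wk (ep := Bd d M) sT tT n x (fun i => x i + (c i : ZMod M)) := by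
  induction n with
  | zero =>
    intro c x hc
    have h0 : ∀ i, c i = 0 := fun i => by
      rw [Finset.sum_eq_zero_iff] at hc
      exact Int.natAbs_eq_zero.1 (hc i (Finset.mem_univ i))
    have : (fun i => x i + (c i : ZMod M)) = x := by
      funext i; rw [h0 i]; simp
    rw [this]
    exact Wk.nil x
  | succ n ih =>
    intro c x hc
    obtain ⟨i, hi⟩ : ∃ i, c i ≠ 0 := by
      by_contra hne
      have hne' : ∀ i, c i = 0 := fun i => by
        by_contra h; exact hne ⟨i, h⟩
      rw [Finset.sum_congr rfl fun i _ => by rw [hne' i]] at hc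
      simp at hc
    rcases lt_or_gt_of_ne hi with hneg | hpos
    · -- step down
      set c' : Fin d → ℤ := Function.update c i (c i + 1) with hc'
      have hs : ∑ j, (c' j).natAbs = n := by
        have h1 : ∑ j, (c j).natAbs = (c i).natAbs + ∑ j ∈ univ.erase i, (c j).natAbs :=
          (add_sum_erase _ _ (mem_univ i)).symm
        have h2 : ∑ j, (c' j).natAbs = (c' i).natAbs + ∑ j ∈ univ.erase i, (c' j).natAbs :=
          (add_sum_erase _ _ (mem_univ i)).symm
        have h3 : ∑ j ∈ univ.erase i, (c' j).natAbs = ∑ j ∈ univ.erase i, (c j).natAbs :=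
          Finset.sum_congr rfl fun j hj => by
            rw [hc', Function.update_of_ne (Finset.ne_of_mem_erase hj)]
        have h4 : c' i = c i + 1 := by rw [hc', Function.update_self]
        rw [h2, h3, h4]
        rw [h1] at hc
        omega
      have h5 := ih c' (x - Pi.single i 1) hs
      have h6 : (fun j => (x - Pi.single i 1 : Tor d M) j + (c' j : ZMod M)) =
          fun j => x j + (c j : ZMod M) := by
        funext j
        by_cases hj : j = i
        · subst hj
          rw [hc', Function.update_self]; simp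
        · rw [hc', Function.update_of_ne hj]; simp [Pi.single_eq_of_ne hj]
      rw [h6] at h5
      have h7 := Wk.bwd (ep := Bd d M) (s := sT) (t := tT) (i, x - Pi.single i 1) h5
      have h8 : tT (i, x - Pi.single i 1) = x := by
        unfold tT; simp
      rwa [h8] at h7
    · set c' : Fin d → ℤ := Function.update c i (c i - 1) with hc'
      have hs : ∑ j, (c' j).natAbs = n := by
        have h1 : ∑ j, (c j).natAbs = (c i).natAbs + ∑ j ∈ univ.erase i, (c j).natAbs :=
          (add_sum_erase _ _ (mem_univ i)).symm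
        have h2 : ∑ j, (c' j).natAbs = (c' i).natAbs + ∑ j ∈ univ.erase i, (c' j).natAbs :=
          (add_sum_erase _ _ (mem_univ i)).symm
        have h3 : ∑ j ∈ univ.erase i, (c' j).natAbs = ∑ j ∈ univ.erase i, (c j).natAbs :=
          Finset.sum_congr rfl fun j hj => by
            rw [hc', Function.update_of_ne (Finset.ne_of_mem_erase hj)]
        have h4 : c' i = c i - 1 := by rw [hc', Function.update_self]
        rw [h2, h3, h4]
        rw [h1] at hc
        omega
      have h5 := ih c' (x + Pi.single i 1) hs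
      have h6 : (fun j => (x + Pi.single i 1 : Tor d M) j + (c' j : ZMod M)) =
          fun j => x j + (c j : ZMod M) := by
        funext j
        by_cases hj : j = i
        · subst hj
          rw [hc', Function.update_self]; simp
        · rw [hc', Function.update_of_ne hj]; simp [Pi.single_eq_of_ne hj]
      rw [h6] at h5
      exact Wk.fwd (ep := Bd d M) (s := sT) (t := tT) (i, x) h5

theorem wk_tor [NeZero M] (x y : Tor d M) : Wk (ep := Bd d M) sT tT (dT x y) x y := by
  have h1 := wk_int (M := M) (dT x y) (fun i => (y i - x i).valMinAbs) x rfl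
  have h2 : (fun i => x i + ((y i - x i).valMinAbs : ZMod M)) = y := by
    funext i
    rw [ZMod.coe_valMinAbs]; ring
  rwa [h2] at h1

/-! ### sums of exponentials -/

theorem sum_Icc_pow (q : ℝ) (n : ℕ) :
    ∑ j ∈ Icc (-(n : ℤ)) n, q ^ j.natAbs = 1 + 2 * ∑ k ∈ range n, q ^ (k + 1) := by
  induction n with
  | zero => simp
  | succ n ih =>
    have h1 : Icc (-((n + 1 : ℕ) : ℤ)) ((n + 1 : ℕ) : ℤ) =
        insert ((n + 1 : ℕ) : ℤ) (insert (-((n + 1 : ℕ) : ℤ)) (Icc (-(n : ℤ)) n)) := by
      ext j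
      simp only [mem_Icc, mem_insert]
      push_cast
      omega
    rw [h1, sum_insert, sum_insert, ih, sum_range_succ]
    · have h2 : (((n + 1 : ℕ) : ℤ)).natAbs = n + 1 := Int.natAbs_natCast _
      have h3 : (-((n + 1 : ℕ) : ℤ)).natAbs = n + 1 := by rw [Int.natAbs_neg]; exact h2
      rw [h2, h3]; ring
    · simp only [mem_Icc]; push_cast; omega
    · simp only [mem_insert, mem_Icc]; push_cast; omega

theorem sum_zmod [NeZero M] (q : ℝ) (hq0 : 0 ≤ q) (hq1 : q < 1) (c : ZMod M) :
    ∑ z : ZMod M, q ^ (c - z).valMinAbs.natAbs ≤ 1 + 2 * (q / (1 - q)) := by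
  have h1 : ∑ z : ZMod M, q ^ (c - z).valMinAbs.natAbs = ∑ z : ZMod M, q ^ z.valMinAbs.natAbs :=
    Fintype.sum_equiv (Equiv.subLeft c) _ _ fun z => rfl
  rw [h1]
  have h2 : ∑ z : ZMod M, q ^ z.valMinAbs.natAbs =
      ∑ j ∈ univ.image (fun z : ZMod M => z.valMinAbs), q ^ j.natAbs := by
    rw [Finset.sum_image]
    intro a _ b _ hab
    exact ZMod.valMinAbs_inj.1 hab
  rw [h2]
  have h3 : univ.image (fun z : ZMod M => z.valMinAbs) ⊆ Icc (-(M : ℤ)) M := by
    intro j hj
    rw [mem_image] at hj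
    obtain ⟨z, _, rfl⟩ := hj
    have h4 := ZMod.natAbs_valMinAbs_le z
    rw [mem_Icc]
    omega
  refine (Finset.sum_le_sum_of_subset_of_nonneg h3 fun j _ _ => pow_nonneg hq0 _).trans ?_
  rw [sum_Icc_pow]
  have h4 : ∑ k ∈ range M, q ^ (k + 1) ≤ q / (1 - q) := by
    have h5 : ∑ k ∈ range M, q ^ (k + 1) = q * ∑ k ∈ range M, q ^ k := by
      rw [Finset.mul_sum]; exact Finset.sum_congr rfl fun k _ => by ring
    have h6 : (∑ k ∈ range M, q ^ k) * (1 - q) = 1 - q ^ M := geom_sum_mul_neg q M
    have h7 : 0 < 1 - q := by linarith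
    rw [h5, le_div_iff₀ h7, mul_assoc, h6]
    nlinarith [pow_nonneg hq0 M]
  linarith

theorem sum_exp [NeZero M] (a : ℝ) (ha : 0 < a) (b : Tor d M) :
    ∑ x : Tor d M, Real.exp (-(a * dT x b)) ≤ (1 + 2 / a) ^ d := by
  set q := Real.exp (-a) with hq
  have hq0 : 0 ≤ q := (Real.exp_pos _).le
  have hq1 : q < 1 := by rw [hq, Real.exp_lt_one_iff]; linarith
  have h1 : ∀ x : Tor d M, Real.exp (-(a * dT x b)) = ∏ i, q ^ (b i - x i).valMinAbs.natAbs :=
    fun x => by
      rw [Finset.prod_pow_eq_pow_sum, hq, ← Real.exp_nat_mul]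
      congr 1
      unfold dT; ring
  simp only [h1]
  have h2 : ∑ x : Tor d M, ∏ i, q ^ (b i - x i).valMinAbs.natAbs =
      ∏ i : Fin d, ∑ z : ZMod M, q ^ (b i - z).valMinAbs.natAbs := by
    rw [Finset.prod_univ_sum, Fintype.piFinset_univ]
  rw [h2]
  have h3 : ∀ i : Fin d, ∑ z : ZMod M, q ^ (b i - z).valMinAbs.natAbs ≤ 1 + 2 / a := fun i => by
    refine (sum_zmod q hq0 hq1 (b i)).trans ?_
    have h4 : q / (1 - q) ≤ 1 / a := by
      rw [div_le_div_iff₀ (by linarith) ha]
      have h5 : a + 1 ≤ Real.exp a := Real.add_one_le_exp a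
      have h6 : q * Real.exp a = 1 := by rw [hq, ← Real.exp_add]; simp
      nlinarith
    have : 2 / a = 2 * (1 / a) := by ring
    linarith
  calc ∏ i : Fin d, ∑ z : ZMod M, q ^ (b i - z).valMinAbs.natAbs ≤ ∏ _i : Fin d, (1 + 2 / a) :=
        Finset.prod_le_prod (fun i _ => Finset.sum_nonneg fun z _ => pow_nonneg hq0 _)
          fun i _ => h3 i
    _ = _ := by rw [Finset.prod_const, Finset.card_univ, Fintype.card_fin]

/-- the sum of `exp (- a ρ)` if `ρ x` is at least `c` times the distance from a set `b`, minus `r` -/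
theorem sum_exp_set [NeZero M] (a c r : ℝ) (ha : 0 < a) (hc : 0 < c) (b : Finset (Tor d M))
    (ρ : Tor d M → ℝ) (A : Tor d M → Prop) [DecidablePred A]
    (hρ : ∀ x, A x → ∃ y ∈ b, c * dT x y - r ≤ ρ x) :
    ∑ x, (if A x then Real.exp (-(a * ρ x)) else 0) ≤
      b.card * (Real.exp (a * r) * (1 + 2 / (a * c)) ^ d) := by
  have h1 : ∀ x, (if A x then Real.exp (-(a * ρ x)) else 0) ≤
      ∑ y ∈ b, Real.exp (a * r) * Real.exp (-(a * c * dT x y)) := fun x => by
    split
    · rename_i hx
      obtain ⟨y, hy, hxy⟩ := hρ x hx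
      refine le_trans ?_ (Finset.single_le_sum
        (f := fun y => Real.exp (a * r) * Real.exp (-(a * c * dT x y)))
        (fun y _ => by positivity) hy)
      show Real.exp (-(a * ρ x)) ≤ Real.exp (a * r) * Real.exp (-(a * c * dT x y))
      rw [← Real.exp_add]
      apply Real.exp_le_exp.2
      nlinarith
    · exact Finset.sum_nonneg fun y _ => by positivity
  refine (Finset.sum_le_sum fun x _ => h1 x).trans ?_
  rw [Finset.sum_comm, ← nsmul_eq_mul]
  refine Finset.sum_le_card_nsmul _ _ _ fun y _ => ?_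
  rw [← Finset.mul_sum]
  exact mul_le_mul_of_nonneg_left (sum_exp (a * c) (mul_pos ha hc) y) (Real.exp_pos _).le

end walks

/-! ### local part plus tail -/

section loc

variable {X ep : Type*} [Fintype X] [Fintype ep]

/-- the form with the conductances `δ` -/
noncomputable def lap (δ : X → X → ℝ) (f : X → ℝ) : ℝ := 1 / 2 * ∑ x, ∑ y, δ x y * (f x - f y) ^ 2

/-- a symmetric matrix with zero row sums is a `lap` -/
theorem qd_lap (E : Matrix X X ℝ) (hE : ∀ x y, E x y = E y x) (h1 : ∀ x, ∑ y, E x y = 0)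
    (f : X → ℝ) : qd E f = lap (fun x y => -E x y) f := by
  unfold qd lap
  have h2 : ∀ x y, -E x y * (f x - f y) ^ 2 =
      2 * (f x * (E x y * f y)) - E x y * f x ^ 2 - E x y * f y ^ 2 := fun x y => by ring
  simp only [h2, Finset.sum_sub_distrib]
  have h3 : ∑ x, ∑ y, E x y * f x ^ 2 = 0 :=
    Finset.sum_eq_zero fun x _ => by rw [← Finset.sum_mul, h1, zero_mul]
  have h4 : ∑ x, ∑ y, E x y * f y ^ 2 = 0 := by
    rw [Finset.sum_comm]
    refine Finset.sum_eq_zero fun y _ => ?_
    have h5 : ∑ x : X, E x y = ∑ x : X, E y x := Finset.sum_congr rfl fun x _ => hE x y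
    rw [← Finset.sum_mul, h5, h1, zero_mul]
  rw [h3, h4, sub_zero, sub_zero]
  simp only [Matrix.mulVec, dotProduct, Finset.mul_sum]
  refine Finset.sum_congr rfl fun x _ => Finset.sum_congr rfl fun y _ => ?_
  ring

theorem lap_add (δ δ' : X → X → ℝ) (f : X → ℝ) :
    lap (fun x y => δ x y + δ' x y) f = lap δ f + lap δ' f := by
  unfold lap
  simp only [add_mul, Finset.sum_add_distrib]; ring

/-- the pairs in `B'` -/
noncomputable def inn (B' : X → Prop) [DecidablePred B'] (δ : X → X → ℝ) (x y : X) : ℝ :=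
  if B' x ∧ B' y then δ x y else 0

/-- the other pairs -/
noncomputable def out (B' : X → Prop) [DecidablePred B'] (δ : X → X → ℝ) (x y : X) : ℝ :=
  if B' x ∧ B' y then 0 else δ x y

theorem lap_split (B' : X → Prop) [DecidablePred B'] (δ : X → X → ℝ) (f : X → ℝ) :
    lap δ f = lap (inn B' δ) f + lap (out B' δ) f := by
  rw [← lap_add]
  congr 1
  funext x y
  unfold inn out
  split <;> simp

theorem lap_loc (B' : X → Prop) [DecidablePred B'] (δ : X → X → ℝ) (f g : X → ℝ) (c : ℝ)
    (h : ∀ x, B' x → f x - g x = c) : lap (inn B' δ) f = lap (inn B' δ) g := by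
  unfold lap inn
  congr 1
  refine Finset.sum_congr rfl fun x _ => Finset.sum_congr rfl fun y _ => ?_
  by_cases hxy : B' x ∧ B' y
  · rw [if_pos hxy]
    have h1 := h x hxy.1
    have h2 := h y hxy.2
    have : f x - f y = g x - g y := by linarith
    rw [this]
  · rw [if_neg hxy, zero_mul, zero_mul]

end loc

section final

variable {d M : ℕ} [NeZero M] {L R : ℕ}

/-- one block of the torus: local part and tail. `|D| ≤ n Q1` for all functions, `UB Q1 al be`, the
conductances of `D` outside of `Core` are bounded by a Moreau expression (`tai`); then the error is a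
Moreau expression in the box plus the tail. -/
theorem loc_tail (a : Tor d M) (hL : 0 < L) (hLM : L ≤ M) (hR : 0 < R) {al al' : Tor d M → ℝ}
    {be be' : Bd d M → ℝ} {b0 b1 n : ℝ} (hb0 : 0 < b0) (hb1 : 0 ≤ b1) (ha : ∀ x, 0 ≤ al x)
    (ha' : ∀ x, 0 ≤ al' x) (hn : 0 ≤ n)
    (hbe : ∀ e, Box a L (sT e) ∧ Box a L (tT e) → b0 ≤ n * be e + be' e ∧ n * be e + be' e ≤ b1)
    {Q1 : (Tor d M → ℝ) → ℝ} (hU : UB sT tT Q1 al be) {δ : Tor d M → Tor d M → ℝ}
    (hD : ∀ f, |lap δ f| ≤ n * Q1 f)
    (hT : ∀ f h, |lap (out (Core a L R) δ) f| ≤ mor sT tT al' be' f h) (f h : Tor d M → ℝ) :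
    |lap δ f| ≤ (2 + 2 * (d : ℝ) ^ 2 * ((L : ℝ) / R) ^ 2 * (b1 / b0)) *
      morB sT tT (Box a L) (fun x => n * al x + al' x) (fun e => n * be e + be' e) f h +
        mor sT tT al' be' f h := by
  have h1 : UB sT tT (fun f => |lap (inn (Core a L R) δ) f|) (fun x => n * al x + al' x)
      (fun e => n * be e + be' e) := by
    intro f h
    rw [mor_add, mor_smul]
    have h2 : |lap (inn (Core a L R) δ) f| ≤ |lap δ f| + |lap (out (Core a L R) δ) f| := by
      have h3 := lap_split (Core a L R) δ f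
      have h4 : lap (inn (Core a L R) δ) f = lap δ f - lap (out (Core a L R) δ) f := by linarith
      rw [h4]; exact abs_sub _ _
    have h5 := mul_le_mul_of_nonneg_left (hU f h) hn
    linarith [hD f, hT f h]
  have h2 := ltgT a hL hLM hR hb0 hb1 (fun x => add_nonneg (mul_nonneg hn (ha x)) (ha' x)) hbe h1
    zero_le_one (D := fun f => lap (inn (Core a L R) δ) f) (fun f _ => by rw [one_mul])
    (fun f g c hfg => lap_loc (Core a L R) δ f g c hfg) f h
  rw [one_mul] at h2
  have h3 : |lap δ f| ≤ |lap (inn (Core a L R) δ) f| + |lap (out (Core a L R) δ) f| := by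
    rw [lap_split (Core a L R) δ f]; exact abs_add_le _ _
  linarith [hT f h]

end final

end Pool.Agent.LTG.H89
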